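import Pool.Agent.X86.FR.Conv

/-!
# Continuum many beta-expansions with prescribed digit frequencies

For every non-integer `β > 1` and all vectors `p̄, p̲ ∈ [0,1]^{⌈β⌉}`: almost every `x ∈ I_β` has a
`β`-expansion of frequency `(p̄, p̲)` if and only if almost every `x ∈ I_β` has a continuum of
such expansions.
-/

set_option autoImplicit false

open Set Filter Topology MeasureTheory

namespace Pool.Agent.Results.MP_d4a354_an.ContinuumOfExpansions

/-- The sequence `ε` over `{0, …, ⌊β⌋}` (indexed from `0`) is a `β`-expansion of `x`, i.e.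
`x = ∑ ε_i β^{-(i+1)}`. -/
def IsExpansion (β : ℝ) (ε : ℕ → Fin (⌊β⌋₊ + 1)) (x : ℝ) : Prop :=
  HasSum (fun i => ((ε i : ℕ) : ℝ) / β ^ (i + 1)) x

/-- The proportion of the digit `k` among the first `n` digits of `ε`. -/
noncomputable def proportion {m : ℕ} (ε : ℕ → Fin (m + 1)) (k : Fin (m + 1)) (n : ℕ) : ℝ :=
  (((Finset.range n).filter (fun i => ε i = k)).card : ℝ) / n

/-- The upper frequency of the digit `k`. -/
noncomputable def upperFreq {m : ℕ} (ε : ℕ → Fin (m + 1)) (k : Fin (m + 1)) : ℝ :=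
  limsup (proportion ε k) atTop

/-- The lower frequency of the digit `k`. -/
noncomputable def lowerFreq {m : ℕ} (ε : ℕ → Fin (m + 1)) (k : Fin (m + 1)) : ℝ :=
  liminf (proportion ε k) atTop

/-- The set `E_β(x; p̄, p̲)` of the `β`-expansions of `x` of frequency `(p̄, p̲)`. -/
def expansions (β : ℝ) (pbar punder : Fin (⌊β⌋₊ + 1) → ℝ) (x : ℝ) :
    Set (ℕ → Fin (⌊β⌋₊ + 1)) :=
  {ε | IsExpansion β ε x ∧ ∀ k, upperFreq ε k = pbar k ∧ lowerFreq ε k = punder k}

/-- The interval `I_β = [0, ⌊β⌋/(β-1)]`. -/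
def interval (β : ℝ) : Set ℝ := Icc 0 ((⌊β⌋₊ : ℝ) / (β - 1))

/-- **The answer to the question is yes.** For every non-integer `β > 1` and all
`p̄, p̲ ∈ [0,1]^{⌈β⌉}`, the set `E_β(x; p̄, p̲)` is nonempty for Lebesgue almost every `x ∈ I_β` if
and only if it has the cardinality of the continuum for Lebesgue almost every `x ∈ I_β`. -/
theorem _root_.Pool.Agent.Results.MP_d4a354_an.ContinuumOfExpansions.result
    (β : ℝ) (hβ : 1 < β) (_hβ' : ∀ n : ℕ, β ≠ n)
    (pbar punder : Fin (⌊β⌋₊ + 1) → ℝ)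
    (hpbar : ∀ k, pbar k ∈ Icc (0 : ℝ) 1) (hpunder : ∀ k, punder k ∈ Icc (0 : ℝ) 1) :
    (∀ᵐ x ∂(volume : Measure ℝ), x ∈ interval β → (expansions β pbar punder x).Nonempty) ↔
    (∀ᵐ x ∂(volume : Measure ℝ), x ∈ interval β →
      Cardinal.mk (expansions β pbar punder x) = Cardinal.continuum) := by
  have h := X86.FR.hyp_floor hβ
  have hmem : ∀ (x : ℝ) (ε : ℕ → Fin (⌊β⌋₊ + 1)), ε ∈ expansions β pbar punder x ↔
      X86.FR.Exp β x ε ∧ X86.FR.FF pbar punder ε := by
    intro x ε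
    rw [X86.FR.exp_iff h, X86.FR.FF_iff]
    rfl
  constructor
  · intro H
    have H1 : ∀ᵐ x ∂(volume.restrict (Icc 0 (X86.FR.R β ⌊β⌋₊))),
        ∃ ε : ℕ → Fin (⌊β⌋₊ + 1), X86.FR.Exp β x ε ∧ X86.FR.FF pbar punder ε := by
      rw [ae_restrict_iff' measurableSet_Icc]
      filter_upwards [H] with x hx hxI
      obtain ⟨ε, hε⟩ := hx hxI
      exact ⟨ε, (hmem x ε).mp hε⟩
    have H2 := X86.FR.main h hpbar hpunder H1
    rw [ae_restrict_iff' measurableSet_Icc] at H2
    filter_upwards [H2] with x hx hxI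
    obtain ⟨F, hF, hF'⟩ := hx hxI
    exact X86.FR.mk_continuum h hF fun c => (hmem x _).mpr (hF' c)
  · intro H
    filter_upwards [H] with x hx hxI
    by_contra hne
    rw [not_nonempty_iff_eq_empty] at hne
    have := hx hxI
    rw [hne] at this
    simp at this
    exact Cardinal.continuum_ne_zero this.symm

end Pool.Agent.Results.MP_d4a354_an.ContinuumOfExpansions
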